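import Pool.Agent.MP_ecfd11_lc.H65N.Real
import Pool.Agent.MP_ecfd11_lc.H13N.Card
import Pool.Agent.MP_ecfd11_lc.H3N.End

/-!
The dichotomy with no arithmetic at the level of the point.
-/

set_option synthInstance.maxSize 4000

namespace Pool.Agent.MP_ecfd11_lc.H65N

open Pool.Agent.MP_ecfd11_lc.H20 Pool.Agent.MP_ecfd11_lc.H13X Pool.Agent.MP_ecfd11_lc.H3U
  Pool.Agent.MP_ecfd11_lc.H3E Pool.Agent.MP_ecfd11_lc.H65S Pool.Agent.MP_ecfd11_lc.H46M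
  Pool.Agent.MP_ecfd11_lc.H3G Pool.Agent.MP_ecfd11_lc.H65D

universe u

open ZFSet Cardinal Function Filter

theorem mainN {d x t : ZFSet.{u}} {k : Cardinal.{u}} (hd : StronglyCompact d t) (hdt : d ∈ t)
    (hx : x ∈ t) (hp : 2 ^ card (d ∪ x) < card t) (ht : Regular Set.univ t) (hk : ℵ₀ ≤ k)
    (hw : ∀ e ∈ t, card e ^ k < card t)
    (hs : ∀ l, x ∈ l → l ⊆ succCard t → Regular Set.univ l → StronglyMeasurable Set.univ l) :
    ∃ th, HODSucc t th ∧ (SupHOD t th ∨ CofOmega Set.univ th ∧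
    ∃ c, Club t c ∧ ∀ a ∈ c, (card a).IsStrongLimit →
      ¬ Regular Set.univ (card a).ord.toZFSet →
      (∀ y, y ⊆ a → card y ≤ k → ∃ b ∈ a, ∀ z ∈ y, z ∈ b) →
      ∀ Q, Q ∈ vonNeumann t.rank → Q.IsTransitive → a ∈ Q → Few k a Q →
        ∃ (M : Set ZFSet.{u}) (i : ZFSet.{u} → ZFSet.{u}), Internal M i ∧ (∀ y ∈ a, i y = y) ∧
          ∀ z ∈ Q, z ∈ M ∧ (z.IsOrdinal → z ∈ i a)) := by
  obtain ⟨g, go, rfl⟩ : ∃ g : ZFSet.{u}, g.IsOrdinal ∧ card g = k :=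
    ⟨_, isOrdinal_toZFSet _, card_ord' k⟩
  refine (H3N.endN (fun _ => True) hd hdt hx hp ht go hk hw hs fun B hB => ?_).imp fun th h =>
    h.imp_right fun h => h.imp_right fun h => h.imp_right fun h => h.imp fun c h =>
      h.imp_right fun h a ha a1 a2 a3 => h a ha a1 a2 a3 (Or.inl trivial)
  filter_upwards [realN hk ht hw hB, H13N.ev_bdk hk ht hw] with a r1 r2 G hb a1 sl _ n v f hn h0 hv
    hf
  have au := hb.unc hk G.ord
  have mu := (r2 hb).unc hk (isOrdinal_toZFSet _)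
  obtain ⟨U, u1, u2⟩ := r1 hb (r2 hb) a1 au mu v n f hn.isTransitive h0 hv hf
  exact rankN hk sl au mu go hb (r2 hb) (card_ord' _).le (hod_ord hn) hv ExQ_sub
    (apxQ G (hod_ord hn) (mem_sep.1 hf).2) U u1 u2

end Pool.Agent.MP_ecfd11_lc.H65N
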