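import Pool.Agent.MP_ecfd11_lc.H46M.Main

/-!
Sets computed from collapses along an arbitrary doubly indexed filtration are in HOD.
-/

set_option synthInstance.maxSize 4000

namespace Pool.Agent.MP_ecfd11_lc.H65N

open Pool.Agent.MP_ecfd11_lc.H20 Pool.Agent.MP_ecfd11_lc.H13X Pool.Agent.MP_ecfd11_lc.H3U
  Pool.Agent.MP_ecfd11_lc.H3E Pool.Agent.MP_ecfd11_lc.H65S Pool.Agent.MP_ecfd11_lc.H46M

universe u

open ZFSet Cardinal Function Filter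

variable {g a m Q Z v w τ : ZFSet.{u}}

theorem nb (hn : Unc a) : (cf a hn).NeBot :=
  neBot (S := a) hn fun ⟨e, e1, e2⟩ => by
    obtain ⟨x, x1, -⟩ := e1.2.1 _ hn.empty_mem
    exact e2 x (e1.1 x1) x1

theorem rank2 (hs : SL a) (ha : Unc a) (hm : Unc m) (cm : card m ≤ card a)
    (hZ : HOD Set.univ Z) (W : ZFSet.{u} → ZFSet.{u} → Prop)
    [Df Set.univ On (fun v => W (v 0) (v 1))]
    (h1 : ∀ σ F, W σ F → σ ⊆ Z ∧ Apx a Z σ ∧ ∀ i ∈ a, ∀ x ∈ m, (app F (pair i x)).IsOrdinal)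
    (hne : ∀ σ F ρ F', W σ F → W ρ F' → σ ≠ ρ →
      ∀ᶠ i in cf a ha, ∀ᶠ x in cf m hm, app F (pair i x) ≠ app F' (pair i x)) :
    ∀ σ F, W σ F → HOD Set.univ σ := by
  have := Df.two (C := Set.univ) (A := On) W
  have : Tm Set.univ On (fun _ => a) := Tm.ofOrd ha.1
  have : Tm Set.univ On (fun _ => m) := Tm.ofOrd hm.1
  have := hod_tm hZ
  have := nb ha
  have := nb hm
  obtain ⟨c, c1, c2⟩ := hs.cof a a ha subset_rfl (fun x hx => ha.succ hx) le_rfl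
  obtain ⟨d, d1, d2⟩ := hs.cof m m hm subset_rfl (fun x hx => hm.succ hx) cm
  have wf : WellFounded fun F' F : ZFSet.{u} =>
      ∀ᶠ i in cf a ha, ∀ᶠ x in cf m hm, app F' (pair i x) ∈ app F (pair i x) := by
    rw [wellFounded_iff_isEmpty_descending_chain]
    refine ⟨fun ⟨G, hG⟩ => ?_⟩
    obtain ⟨i, hi⟩ := (ev_nat (S := a) ha (p := fun n i => ∀ᶠ x in cf m hm,
      app (G (n + 1)) (pair i x) ∈ app (G n) (pair i x)) hG).exists
    obtain ⟨x, hx⟩ := (ev_nat (S := m) hm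
      (p := fun n x => app (G (n + 1)) (pair i x) ∈ app (G n) (pair i x)) hi).exists
    exact (wellFounded_iff_isEmpty_descending_chain.1 mem_wf).false
      ⟨fun n => app (G n) (pair i x), hx⟩
  intro t F0 ht
  by_contra h0
  obtain ⟨F1, ⟨z, w1, w2⟩, w3⟩ := wf.has_min {F | ∃ σ, W σ F ∧ ¬ HOD Set.univ σ} ⟨F0, t, ht, h0⟩
  obtain ⟨M, hM⟩ : ∃ M, M = (powerset Z).sep fun σ => ¬ HOD Set.univ σ ∧ ∃ F, W σ F ∧
    ∀ ρ, ∀ F', W ρ F' → ¬ HOD Set.univ ρ → ¬ Null a (a.sep fun i =>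
      ¬ Null m (m.sep fun x => ¬ app F' (pair i x) ∈ app F (pair i x))) := ⟨_, rfl⟩
  have m0 : ∀ σ ∈ M, ∃ F, ¬ HOD Set.univ σ ∧ W σ F ∧ ∀ ρ F', W ρ F' → ¬ HOD Set.univ ρ →
      ¬ ∀ᶠ i in cf a ha, ∀ᶠ x in cf m hm, app F' (pair i x) ∈ app F (pair i x) := fun σ h => by
    rw [hM] at h
    obtain ⟨-, e1, F, e2, e3⟩ := mem_sep.1 h
    exact ⟨F, e1, e2, e3⟩
  choose! f f1 f2 f3 using m0
  refine w2 (small_fam (a := a) (F := M) hZ (by rw [hM]; exact od_iff.2 inferInstance)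
    (fun x hx => (h1 x _ (f2 x hx)).1) (hs.sl _ ((er M (prod c d) (fun σ p => app (f σ) p)
      (fun x hx p hp => ?_) fun y hy x hx e => ?_).trans_lt (hs.sl _ (max_lt hs.unc
        ((card_prod_le _ _).trans_lt (mul_lt_of_lt hs.unc.le c2 d2))))))
    (hM ▸ mem_sep.2 ⟨mem_powerset.2 (h1 z _ w1).1, w2, F1, w1,
      fun ρ F' s1 s2 s3 => w3 F' ⟨ρ, s1, s2⟩ s3⟩) (h1 z _ w1).2.1)
  · obtain ⟨i, hi, j, hj, rfl⟩ := mem_prod.1 hp
    exact (h1 x _ (f2 x hx)).2.2 i (c1.1 hi) j (d1.1 hj)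
  · obtain ⟨i, i1, i2, i3⟩ := ((not_eventually.1 (f3 x hx y _ (f2 y hy) (f1 y hy))).and_eventually
      ((hne y _ x _ (f2 y hy) (f2 x hx) e).and (ev_club ha c1))).exists
    obtain ⟨j, j1, j2, j3⟩ := ((not_eventually.1 i1).and_eventually
      (i2.and (ev_club hm d1))).exists
    rcases ((h1 y _ (f2 y hy)).2.2 i (c1.1 i3) j (d1.1 j3)).mem_trichotomous
      ((h1 x _ (f2 x hx)).2.2 i (c1.1 i3) j (d1.1 j3)) with h | h | h
    exacts [absurd h j1, absurd h j2, ⟨_, pair_mem_prod.2 ⟨i3, j3⟩, h⟩]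

/-- `b` is closed under the functions `a → a` in `X`. -/
def CloX (a X b : ZFSet.{u}) : Prop :=
  ∀ f, f ∈ X → IsFunc a a f → ∀ i, i ∈ b → ∀ j, pair i j ∈ f → j ∈ b

/-- On `X × v[b]`, `σ` is computed from the collapse of `v[b]` and the function `h`. -/
def InX (a X v σ b h : ZFSet.{u}) : Prop :=
  CloX a X b ∧ ∃ p, Clp v b p ∧
    ∀ x, x ∈ X → ∀ y, InP v b y → (pair x y ∈ σ ↔ app h (app p y) ∈ x)

instance Df.inX (o p q r s t : (ℕ → ZFSet.{u}) → ZFSet.{u}) [Tm Set.univ On o] [Tm Set.univ On p]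
    [Tm Set.univ On q] [Tm Set.univ On r] [Tm Set.univ On s] [Tm Set.univ On t] :
    Df Set.univ On (fun v => InX (o v) (p v) (q v) (r v) (s v) (t v)) := by
  unfold InX CloX; infer_instance

theorem cmp (hg : ℵ₀ ≤ card g) (ha : Unc a) (hv : CovK g a Q v) (hw : CovK g a Q w) :
    ∃ s, card s ≤ card g ∧ s ⊆ Lev a ∧ ∀ X b, s ⊆ X → CloX a X b →
      ∀ x, InP v b x → InP w b x := by
  choose! h h1 h2 h3 using fun p (hp : p ∈ prod v w) => canon_fun (g := fst p) (g' := snd p) ha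
    (by
      obtain ⟨x, hx, y, -, rfl⟩ := mem_prod.1 hp
      exact (fst_pair x y).symm ▸ (hv.2.1 x hx).1)
    (by
      obtain ⟨x, -, y, hy, rfl⟩ := mem_prod.1 hp
      exact (snd_pair x y).symm ▸ (hw.2.1 y hy).1)
  refine ⟨img h (prod v w), (card_img_le _ _).trans ((card_prod_le _ _).trans
    ((mul_le_mul' hv.1 hw.1).trans_eq (mul_eq_self hg))), fun z hz => ?_,
    fun X b k1 hc x ⟨f, hf, n, hn, hx⟩ => ?_⟩
  · obtain ⟨p, hp, rfl⟩ := mem_img.1 hz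
    exact h1 p hp
  · have g1 := (hv.2.1 f hf).2
    obtain ⟨na, hxX⟩ := pair_mem_prod.1 (g1.1 hx)
    obtain ⟨f', hf', j, hj⟩ := hw.2.2 x hxX
    have g2 := (hw.2.1 f' hf').2
    have hp := pair_mem_prod.2 ⟨hf, hf'⟩
    have h6 := hc _ (k1 (mem_img.2 ⟨_, hp, rfl⟩)) (h2 _ hp) n hn _ ((h2 _ hp).app_mem na)
    have h7 := h3 _ hp n na
    rw [fst_pair, snd_pair] at h7
    refine ⟨f', hf', _, h6, ?_⟩
    have h8 := g2.app_mem ((h2 _ hp).app_mem' na)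
    rwa [h7 ⟨j, (pair_mem_prod.1 (g2.1 hj)).1, (g2.app_eq hj).trans (g1.app_eq hx).symm⟩,
      g1.app_eq hx] at h8

theorem ae_ball (ha : Unc a) (hm : Unc m) (hb : BdK g a) (hc : BdK g m) {s : ZFSet.{u}}
    (hs : card s ≤ card g) {p : ZFSet.{u} → ZFSet.{u} → ZFSet.{u} → Prop}
    (h : ∀ z ∈ s, ∀ᶠ i in cf a ha, ∀ᶠ x in cf m hm, p z i x) :
    ∀ᶠ i in cf a ha, ∀ᶠ x in cf m hm, ∀ z ∈ s, p z i x :=
  (hb.ev ha hs (p := fun z i => ∀ᶠ x in cf m hm, p z i x) h).mono fun i hi =>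
    hc.ev hm hs (p := fun z x => p z i x) hi

theorem rankN (hg : ℵ₀ ≤ card g) (hs : SL a) (ha : Unc a) (hm : Unc m) (go : g.IsOrdinal)
    (hb : BdK g a) (hc : BdK g m) (cm : card m ≤ card a) (hQ : HOD Set.univ Q)
    (hv : CovK g a Q v) (h1 : τ ⊆ prod (Lev a) Q) (h2 : Apx a (prod (Lev a) Q) τ)
    (U : ZFSet.{u} → ZFSet.{u} → ZFSet.{u})
    (h3 : ∀ z ∈ Lev a, ∀ᶠ i in cf a ha, ∀ᶠ x in cf m hm, z ∈ U i x)
    (h4 : ∀ i ∈ a, ∀ x ∈ m, ∃ b ∈ a, i ∈ b ∧ ∃ h ∈ low a, InX a (U i x) v τ b h) :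
    HOD Set.univ τ := by
  have hZ := hod_prod (hod_Lev ha.1) hQ
  have hD := hod_prod (hod_ord ha.1) ((mem_Lev ha.1).1 (low_lev ha.1)).2
  obtain ⟨n, no, k, k0, k1, k2⟩ := od_rank (prod a (low a)) fun x hx => (hD.mem hx).self
  have := Tm.one (C := Set.univ) (A := On) k
  have : Tm Set.univ On (fun _ => a) := Tm.ofOrd ha.1
  have : Tm Set.univ On (fun _ => m) := Tm.ofOrd hm.1
  have : Tm Set.univ On (fun _ => g) := Tm.ofOrd go
  have := tm_low ha.1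
  have := hod_tm (hod_Lev ha.1)
  have := hod_tm hQ
  obtain ⟨W, hW⟩ : ∃ W : ZFSet.{u} → ZFSet.{u} → Prop, W = fun σ F =>
      σ ⊆ prod (Lev a) Q ∧ Apx a (prod (Lev a) Q) σ ∧ ∃ v', CovK g a Q v' ∧ ∃ U',
        (∀ z, z ∈ Lev a → Null a (a.sep fun i =>
          ¬ Null m (m.sep fun x => ¬ z ∈ app U' (pair i x)))) ∧
        ∀ i, i ∈ a → ∀ x, x ∈ m → ∃ b, b ∈ a ∧ i ∈ b ∧ ∃ h, h ∈ low a ∧
          app F (pair i x) = k (pair b h) ∧ InX a (app U' (pair i x)) v' σ b h := ⟨_, rfl⟩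
  have : Df Set.univ On (fun v => W (v 0) (v 1)) := by
    rw [hW]
    infer_instance
  choose! B b1 b2 H b3 b4 using h4
  refine rank2 hs ha hm cm hZ W (fun σ F h => ?_) (fun σ F ρ F' hσ hρ hne => ?_) τ
    (gr (fun p => k (pair (B (fst p) (snd p)) (H (fst p) (snd p)))) (prod a m)) ?_
  · rw [hW] at h
    obtain ⟨e1, e2, v1, -, U1, -, e3⟩ := h
    refine ⟨e1, e2, fun i hi x hx => ?_⟩
    obtain ⟨b, c1, -, h, c2, c3, -⟩ := e3 i hi x hx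
    exact c3 ▸ no.mem (k1 _ (pair_mem_prod.2 ⟨c1, c2⟩))
  · rw [hW] at hσ hρ
    obtain ⟨s1, -, v1, s2, U1, s3, s4⟩ := hσ
    obtain ⟨r1, -, v2, r2, U2, r3, r4⟩ := hρ
    obtain ⟨x, y, hx, hy, h⟩ : ∃ x y, x ∈ Lev a ∧ y ∈ Q ∧ ¬ (pair x y ∈ σ ↔ pair x y ∈ ρ) := by
      by_contra h
      refine hne (ZFSet.ext fun z => ⟨fun hz => ?_, fun hz => ?_⟩)
      · obtain ⟨x, hx, y, hy, rfl⟩ := mem_prod.1 (s1 hz)
        exact by_contra fun h' => h ⟨x, y, hx, hy, fun e => h' (e.1 hz)⟩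
      · obtain ⟨x, hx, y, hy, rfl⟩ := mem_prod.1 (r1 hz)
        exact by_contra fun h' => h ⟨x, y, hx, hy, fun e => h' (e.2 hz)⟩
    obtain ⟨j, j1, j2⟩ := lemAK_inP s2 hy
    obtain ⟨A, a1, a2, a3⟩ := cmp hg ha s2 r2
    obtain ⟨A', a4, a5, a6⟩ := cmp hg ha r2 s2
    have e1 : ∀ᶠ i in cf a ha, ∀ᶠ l in cf m hm, x ∈ app U1 (pair i l) := s3 x hx
    have e2 : ∀ᶠ i in cf a ha, ∀ᶠ l in cf m hm, x ∈ app U2 (pair i l) := r3 x hx
    filter_upwards [e1, e2, ae_ball ha hm hb hc a1 (p := fun z i l => z ∈ app U1 (pair i l))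
      (fun z hz => s3 z (a2 hz)), ae_ball ha hm hb hc a4
      (p := fun z i l => z ∈ app U1 (pair i l)) (fun z hz => s3 z (a5 hz)),
      ev_above (S := a) ha j1, ev_mem (S := a) ha] with i i1 i2 i3 i4 i5 i6
    filter_upwards [i1, i2, i3, i4, ev_mem (S := m) hm] with l l1 l2 l3 l4 l5 e
    obtain ⟨b, p1, p2, f, p3, p4, p5, p, p6, p7⟩ := s4 i i6.1 l l5.1
    obtain ⟨b', q1, -, f', q3, q4, -, q, q6, q7⟩ := r4 i i6.1 l l5.1
    obtain ⟨rfl, rfl⟩ := pair_inj.1 (k2 _ (pair_mem_prod.2 ⟨p1, p3⟩) _ (pair_mem_prod.2 ⟨q1, q3⟩)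
      (p4.symm.trans (e.trans q4)))
    have k3 := a3 _ b l3 p5
    have k4 := a6 _ b l4 p5
    have y1 := j2 _ ((ha.1.mem p1).mem_trans i5 p2)
    have q8 : Clp v1 b q := fun y hy z => (q6 y (k3 y hy) z).trans
      (exists_congr fun s => and_congr_right fun _ => and_congr_left fun _ => ⟨k4 s, k3 s⟩)
    refine h ((p7 x l1 y y1).trans ?_)
    rw [p6.unique q8 y y1]
    exact (q7 x l2 y (k3 y y1)).symm
  · rw [hW]
    refine ⟨h1, h2, v, hv, gr (fun p => U (fst p) (snd p)) (prod a m), fun z hz => ?_,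
      fun i hi x hx => ⟨B i x, b1 i hi x hx, b2 i hi x hx, H i x, b3 i hi x hx, ?_, ?_⟩⟩
    · refine (ev_iff (S := a) ha (p := fun i => ∀ᶠ x in cf m hm,
        z ∈ app (gr (fun p => U (fst p) (snd p)) (prod a m)) (pair i x))).1 ?_
      filter_upwards [h3 z hz, ev_mem (S := a) ha] with i i1 i2
      filter_upwards [i1, ev_mem (S := m) hm] with x x1 x2
      rwa [app_gr (pair_mem_prod.2 ⟨i2.1, x2.1⟩), fst_pair, snd_pair]
    · rw [app_gr (pair_mem_prod.2 ⟨hi, hx⟩), fst_pair, snd_pair]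
    · rw [app_gr (pair_mem_prod.2 ⟨hi, hx⟩), fst_pair, snd_pair]
      exact b4 i hi x hx

end Pool.Agent.MP_ecfd11_lc.H65N
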