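import Pool.Agent.MP_ecfd11_lc.H65N.Rank

/-!
Reflection of the long extenders along a doubly indexed filtration.
-/

set_option synthInstance.maxSize 4000

namespace Pool.Agent.MP_ecfd11_lc.H65N

open Pool.Agent.MP_ecfd11_lc.H20 Pool.Agent.MP_ecfd11_lc.H13X Pool.Agent.MP_ecfd11_lc.H3U
  Pool.Agent.MP_ecfd11_lc.H3E Pool.Agent.MP_ecfd11_lc.H65S Pool.Agent.MP_ecfd11_lc.H46M

universe u

open ZFSet Cardinal Function Filter

variable {g t a b : ZFSet.{u}} {B : ZFSet.{u} → ZFSet.{u}} {κ : Type u}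

/-- The extenders at `a` are computed from collapses along some filtration of `Lev a`. -/
def RealN (g t : ZFSet.{u}) (B : ZFSet.{u} → ZFSet.{u}) (a : ZFSet.{u}) : Prop :=
  ∀ (ha : Unc a) (hm : Unc (card a).ord.toZFSet) (v Q G : ZFSet.{u}), Q.IsTransitive →
    (∃ y, y ∈ Q) → CovK g a Q v → G ∈ low t → ∃ U : ZFSet.{u} → ZFSet.{u} → ZFSet.{u},
      (∀ z ∈ Lev a, ∀ᶠ i in cf a ha, ∀ᶠ x in cf (card a).ord.toZFSet hm, z ∈ U i x) ∧
      ∀ i ∈ a, ∀ x ∈ (card a).ord.toZFSet, ∃ b ∈ a, i ∈ b ∧ ∃ h ∈ low a,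
        InX a (U i x) v (ExQ B a Q G) b h

/-- `z` codes the preimage of `B w` under `G ∘ f`. -/
def Cd (B : ZFSet.{u} → ZFSet.{u}) (a G f w z : ZFSet.{u}) : Prop :=
  ∀ n ∈ a, app G (app f n) ∈ B w ↔ n ∈ B z

/-- The sets whose codes lie in `D`. -/
noncomputable def flt (B : ZFSet.{u} → ZFSet.{u}) (a G : ZFSet.{u}) (V : κ → ZFSet.{u})
    (D : ZFSet.{u}) : ZFSet.{u} :=
  img (fun w => B w ∩ vC Set.univ a) (D.sep fun w => ∀ k, ∃ z ∈ D, Cd B a G (V k) w z)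

theorem exists_cd (h : Good t B a) {G f w : ZFSet.{u}} (hG : HOD Set.univ G)
    (hf : HOD Set.univ f) (hw : w ∈ a) : ∃ z ∈ a, Cd B a G f w z := by
  have := hod_tm hG
  have := hod_tm hf
  have := hod_tm (h.hod w hw)
  have : Tm Set.univ On (fun _ => a) := Tm.ofOrd h.ord
  obtain ⟨z, hz, e⟩ := h.tr (a.sep fun n => app G (app f n) ∈ B w) ((mem_Lev h.ord).2
    ⟨fun n hn => H3E.mem_vC h.ord (mem_sep.1 hn).1,
      hod_of_subset h.ord sep_subset (od_iff.2 inferInstance)⟩)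
  refine ⟨z, hz, fun n hn => ⟨fun h1 => ?_, fun h1 => ?_⟩⟩
  · exact (mem_inter.1 (e ▸ mem_sep.2 ⟨hn, h1⟩ : n ∈ B z ∩ vC Set.univ a)).1
  · exact (mem_sep.1 (e.symm ▸ mem_inter.2 ⟨h1, H3E.mem_vC h.ord hn⟩ :
      n ∈ a.sep fun n => app G (app f n) ∈ B w)).2

theorem exists_dd : ∃ D : ZFSet.{u} → ZFSet.{u} → ZFSet.{u},
    (∀ i x, D i x ⊆ i ∧ card (D i x) ≤ card x) ∧
    ∀ a (ha : Unc a) (hm : Unc (card a).ord.toZFSet), ∀ z ∈ a,
      ∀ᶠ i in cf a ha, ∀ᶠ x in cf (card a).ord.toZFSet hm, z ∈ D i x := by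
  choose E hE using fun i : ZFSet.{u} =>
    exists_surj_of_card_le (a := (card i).ord.toZFSet) (b := i) (card_ord' _).ge
  refine ⟨fun i x => i ∩ img (E i) x, fun i x => ⟨fun z hz => (mem_inter.1 hz).1,
    (card_mono fun z hz => (mem_inter.1 hz).2).trans (card_img_le _ _)⟩, fun a ha hm z hz => ?_⟩
  filter_upwards [ev_above (S := a) ha hz, ev_mem (S := a) ha] with i i1 i2
  obtain ⟨y, y1, y2⟩ := hE i z i1
  have yo := (isOrdinal_toZFSet _).mem y1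
  filter_upwards [ev_above (S := (card a).ord.toZFSet) hm ((mem_ord_iff yo).2
    (((mem_ord_iff yo).1 y1).trans_le (card_mono (ha.1.subset_of_mem i2.1))))] with x hx
  exact mem_inter.2 ⟨i1, mem_img.2 ⟨y, hx, y2⟩⟩

theorem flt_tail (h : Good t B a) {m : ZFSet.{u}} (ha : Unc a) (hm : Unc m) (hb : BdK g a)
    (hc : BdK g m) {D : ZFSet.{u} → ZFSet.{u} → ZFSet.{u}}
    (hD : ∀ z ∈ a, ∀ᶠ i in cf a ha, ∀ᶠ x in cf m hm, z ∈ D i x) {G : ZFSet.{u}}
    (hG : HOD Set.univ G) {V : Shrink.{u} g → ZFSet.{u}} (v0 : ∀ k, HOD Set.univ (V k)) :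
    ∀ z ∈ Lev a, ∀ᶠ i in cf a ha, ∀ᶠ x in cf m hm, z ∈ flt B a G V (D i x) := by
  intro y hy
  obtain ⟨w, hw, rfl⟩ := h.tr y hy
  choose z z1 z2 using fun k => exists_cd h hG (v0 k) hw
  have e := ae_ball ha hm hb hc (s := range z) (by
      have h1 := lift_card_range_le (f := z)
      rw [lift_id, lift_id] at h1
      exact h1) (p := fun z i x => z ∈ D i x) fun y hy => by
    obtain ⟨n, rfl⟩ := mem_range.1 hy
    exact hD _ (z1 n)
  filter_upwards [e, hD w hw] with i i1 i2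
  filter_upwards [i1, i2] with x x1 x2
  exact mem_img.2 ⟨w, mem_sep.2 ⟨x2, fun k => ⟨z k, x1 _ (mem_range.2 ⟨k, rfl⟩), z2 k⟩⟩, rfl⟩

theorem reflectN (ha : Good t B a) (hb : Good t B b) (hba : b ∈ a) {Q Q' G G' D : ZFSet.{u}}
    (hG : G' ∈ low a) {U V U' V' : κ → ZFSet.{u}}
    {j : κ ⊕ (κ × κ) ⊕ (κ × κ) → ZFSet.{u}} (h1 : CodedM B a Q G U V j)
    (h2 : CodedM B b Q' G' U' V' j) {v : ZFSet.{u}} (hv : ∀ f, f ∈ v ↔ ∃ k, V k = f)
    (hi : D ⊆ b) (hc : ∀ k, ∀ w ∈ D, ∀ z ∈ D, Cd B a G (V k) w z → Cd B b G' (V' k) w z) :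
    InX a (flt B a G V D) v (ExQ B a Q G) b G' := by
  have hs : b ⊆ a := ha.ord.subset_of_mem hba
  obtain ⟨p, p1, p2⟩ := reflectM_clp hs h1 h2 hv
  have key : ∀ x ∈ flt B a G V D, ∃ w ∈ D, x = B w ∩ vC Set.univ a ∧
      ∀ k, ∃ z ∈ D, Cd B a G (V k) w z := fun x hx => by
    obtain ⟨w, hw, rfl⟩ := mem_img.1 hx
    exact ⟨w, (mem_sep.1 hw).1, rfl, (mem_sep.1 hw).2⟩
  refine ⟨fun h hh hf n hn z hz => ?_, p, p1, fun x hx y hy => ?_⟩
  · obtain ⟨x, hx, rfl, -⟩ := key h hh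
    have z1 : z ∈ a := (pair_mem_prod.1 (hf.1 hz)).2
    obtain ⟨w, hw, w1⟩ := hb.s1 x (hi hx) n hn ⟨z, ha.sub z1, (mem_inter.1 hz).1⟩
    have w2 : pair n w ∈ B x ∩ vC Set.univ a := mem_inter.2 ⟨w1,
      (pair_vC ha.ord ha.lim).2 ⟨H3E.mem_vC ha.ord (hs hn), H3E.mem_vC ha.ord (hs hw)⟩⟩
    exact (hf.2 n (hs hn)).unique w2 hz ▸ hw
  · obtain ⟨w, hw, rfl, c⟩ := key x hx
    obtain ⟨k, n, hn, rfl⟩ := (reflectK_inP hs h1.v1 hv).1 hy
    obtain ⟨z, hz, c1⟩ := c k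
    have wa : w ∈ a := hs (hi hw)
    have e1 : app G (app (V k) n) ∈ B w ↔ app G' (app (V' k) n) ∈ B w :=
      (c1 n (hs hn)).trans (hc k w hw z hz c1 n hn).symm
    rw [p2 k n hn, mem_ExQ]
    constructor
    · rintro ⟨-, -, w', hw', w1, w2⟩
      rw [ha.s0 w' hw' w wa w1.symm] at w2
      exact mem_inter.2 ⟨e1.1 w2, reflectK_app ha.ord hG⟩
    · intro h
      have t1 := hod_tm (ha.hod w wa)
      have t2 : Tm Set.univ On (fun _ => a) := Tm.ofOrd ha.ord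
      exact ⟨(mem_Lev ha.ord).2 ⟨fun z hz => (mem_inter.1 hz).2, hod_sub (ha.hod w wa)
        (fun z hz => (mem_inter.1 hz).1) (od_iff.2 inferInstance)⟩,
        (h1.v1 k).app_mem' (hs hn), w, wa, rfl, e1.2 (mem_inter.1 h).1⟩

theorem realN (hg : ℵ₀ ≤ card g) (ht : Regular Set.univ t)
    (hw : ∀ e ∈ t, card e ^ card g < card t)
    (h : ∀ᶠ L in cf t (unc_of_regular ht), Good t B L) :
    ∀ᶠ a in cf t (unc_of_regular ht), BdK g a → BdK g (card a).ord.toZFSet →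
      (card a).IsStrongLimit → RealN g t B a := by
  by_contra h0
  obtain ⟨D, d0, d1⟩ := exists_dd.{u}
  have hu := unc_of_regular ht
  have e0 : #(Shrink.{u} g) = card g := rfl
  have hι : #(Option (Option (Shrink.{u} g ⊕ (Shrink.{u} g × Shrink.{u} g) ⊕
      (Shrink.{u} g × Shrink.{u} g)))) ≤ card g := by
    simp only [mk_option, mk_sum, mk_prod, lift_id, e0, mul_eq_self hg, add_eq_self hg,
      add_one_eq hg, le_refl]
  obtain ⟨j, hj⟩ := fr_constK hι ht hw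
    (fun j a => (card g < card a ∧ card (j (some none)) < card a ∧ (card a).IsStrongLimit) ∧
      Good t B a ∧ ∃ (U V : Shrink.{u} g → ZFSet.{u}) (v Q G : ZFSet.{u}),
      G ∈ low t ∧ CodedM B a Q G U V (fun k => j (some (some k))) ∧
      (∀ f, f ∈ v ↔ ∃ k, V k = f) ∧ ∀ b ∈ a, j none ∈ b → ∀ h ∈ low a,
        ¬ InX a (flt B a G V (D (j none) (j (some none)))) v (ExQ B a Q G) b h)
    (((not_eventually.1 h0).and_eventually h).mono fun a ⟨h1, ha⟩ => by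
      simp only [RealN, not_forall, not_exists, not_and] at h1
      obtain ⟨hb, hc, hs, au, mu, v, Q, G, c2, ⟨y, c3⟩, c4, c6, c5⟩ := h1
      obtain ⟨V, hV⟩ := realK_enum c4.1 ((c4.2.2 _ c3).imp fun _ h => h.1)
      have v0 := fun m => c4.2.1 _ ((hV _).2 ⟨m, rfl⟩)
      have g0 := ((mem_low ht.1).1 c6).2
      have u0 := cst_GG ha.ord ((mem_Lev ha.ord).2 ⟨empty_subset _, hod_ord isOrdinal_empty⟩)
      obtain ⟨i, hi, x, hx, c7⟩ := c5 _
        (flt_tail ha au mu hb hc (d1 a au mu) g0 fun k => (v0 k).1)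
      obtain ⟨j, j1, j2⟩ := exists_codedM (U := fun _ => cst a ∅) ha g0 (fun _ => u0.1)
        (fun _ => u0.2) (fun k => (v0 k).1) (fun k => (v0 k).2)
        (fun x hx => by
          obtain ⟨f, g1, g2⟩ := c4.2.2 x hx
          obtain ⟨m, rfl⟩ := (hV f).1 g1
          exact ⟨m, g2⟩) c2
      have xo := mu.1.mem hx
      have x1 := (mem_ord_iff xo).1 hx
      have xa : x ∈ a := (xo.mem_or_subset ha.ord).resolve_right fun h' => (card_mono h').not_gt x1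
      have ga : card g < card a := not_le.1 fun h => by
        obtain ⟨b, b1, b2⟩ := hb a subset_rfl h
        exact mem_irrefl b (b2 b b1)
      exact ⟨hb, fun k => k.elim i fun k => k.elim x j, fun k => by
        rcases k with _ | _ | k
        exacts [hi, xa, j1 _], ⟨ga, x1, hs⟩, ha, _, V, v, Q, G, c6, j2, hV, c7⟩)
  obtain ⟨a0, ⟨k1, ⟨k2, k4, k5⟩, -⟩, k3⟩ := (hj.and_eventually (ev_mem hu)).exists
  generalize hD : D (j none) (j (some none)) = X at hj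
  have x1 : X ⊆ j none := hD ▸ (d0 _ _).1
  have it : card X < card a0 := (hD ▸ (d0 _ _).2 : card X ≤ _).trans_lt k4
  have hT : #(Set (Shrink.{u} g × Shrink.{u} X × Shrink.{u} X)) < card t := by
    have e1 : #(Shrink.{u} X) = card X := rfl
    rw [mk_set]
    refine (k5.two_power_lt ?_).trans (ht.card_lt k3.2)
    simp only [mk_prod, lift_id, e0, e1]
    exact mul_lt_of_lt k5.aleph0_le k2 (mul_lt_of_lt k5.aleph0_le it it)
  obtain ⟨c, hc⟩ : ∃ c : Set (Shrink.{u} g × Shrink.{u} X × Shrink.{u} X),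
      ∃ᶠ a in cf t hu, Good t B a ∧ ∃ (U V : Shrink.{u} g → ZFSet.{u}) (v Q G : ZFSet.{u}),
      G ∈ low t ∧ CodedM B a Q G U V (fun k => j (some (some k))) ∧
      (∀ f, f ∈ v ↔ ∃ k, V k = f) ∧ (∀ b ∈ a, j none ∈ b → ∀ h ∈ low a,
        ¬ InX a (flt B a G V X) v (ExQ B a Q G) b h) ∧
      ∀ k w (hw : w ∈ X) z (hz : z ∈ X), Cd B a G (V k) w z ↔
        (k, equivShrink _ ⟨w, hw⟩, equivShrink _ ⟨z, hz⟩) ∈ c := by
    by_contra h1
    simp only [not_exists, not_frequently] at h1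
    obtain ⟨a, ⟨-, -, ha, U, V, v, Q, G, a1, a2, a3, a4⟩, a5⟩ :=
      (hj.and_eventually (ev_type ht hT h1)).exists
    exact a5 {q | Cd B a G (V q.1) ((equivShrink _).symm q.2.1).1 ((equivShrink _).symm q.2.2).1}
      ⟨ha, U, V, v, Q, G, a1, a2, a3, a4, fun k w hw z hz => by simp⟩
  obtain ⟨b, ⟨hb, U', V', -, Q', G', b1, b2, -, -, b5⟩, b3, b4⟩ := (hc.and_eventually
    ((ev_above hu (ht.1.mem_trans (k1 none) k3.2)).and (ev_mem hu))).exists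
  obtain ⟨g1, g2⟩ := (mem_low ht.1).1 b1
  obtain ⟨d, d2, d3⟩ := exists_level ht.1 (fun b hb => hu.succ hb) g1
  obtain ⟨a, ⟨ha, U, V, v, Q, G, -, a2, a3, a4, a5⟩, a6, a7⟩ := (hc.and_eventually
    ((ev_above hu b4.2).and (ev_above hu d2))).exists
  have g3 : G' ∈ low a := (mem_low ha.ord).2 ⟨d3.trans (rank_lt_of_mem a7), g2⟩
  exact a4 b a6 b3 G' g3 (reflectN ha hb a6 g3 a2 b2 a3
    (fun z hz => hb.ord.mem_trans (x1 hz) b3)
    fun k w hw z hz h => (b5 k w hw z hz).2 ((a5 k w hw z hz).1 h))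

end Pool.Agent.MP_ecfd11_lc.H65N
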